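import Pool.Agent.Q28.MS.Summand

/-!
# Self-dual Chow-Kunneth decompositions of direct summands

`𝒱` is a class of smooth projective geometrically irreducible varieties over the field `k` closed
under products (for example all of them), `C` the Chow groups with rational coefficients (in the
form of their formal properties, `IsChowProj`) and `H` a Weil cohomology theory (`IsWeilProj`).

Let `Z` have one Chow-Kunneth decomposition without non-zero morphisms `h^a(Z) → h^b(Z)`,
`a < b`. Then every variety `X` such that a twist of `h(X)` is a direct summand of `h(Z)` (for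
example, every `X` dominated by `Z`) has a self-dual Chow-Kunneth decomposition, and one without
non-zero morphisms `h^a(X) → h^b(X)`, `a < b`. No finite-dimensionality is assumed, and only one
decomposition is considered.
-/

open CategoryTheory AlgebraicGeometry

set_option autoImplicit false

universe u v w

namespace Pool.Agent.Results.MP_8a7054_ag.DescentToSummands

open Pool.Agent.H914 Pool.Agent.W492.BB Pool.Agent.TH133 Pool.Agent.Q28.MS

/-- Self-dual Chow-Kunneth decompositions descend to twisted direct summands. -/
theorem result {k : Type u} [Field k] {𝒱 : VarClass k} (C : TheoryData.{u, v, 0} 𝒱 ℚ)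
    [IsChowProj C] {K : Type w} [Field K] (H : WeilTheoryData.{u, v, w} C K) [IsWeilProj H]
    (X Z : 𝒱.Obj) (c : ℕ) (hs : Summand C c X Z) (hZ : ∃ π, IsCK H Z π ∧ NeverRaises π) :
    HasSelfDualCK H X ∧ ∃ π : ℕ → C.A (X.prod X), IsCK H X π ∧ NeverRaises π := by
  obtain ⟨π, h, hr⟩ := hZ
  obtain ⟨π', h', hr'⟩ := neverRaises_of_summand hs h hr
  exact ⟨selfDual_of_neverRaises h' hr', π', h', hr'⟩

end Pool.Agent.Results.MP_8a7054_ag.DescentToSummands
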