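import Pool.Agent.Q28.EN.Order

/-!
# Self-dual Chow-Kunneth decompositions from isotropic families of projectors

`𝒱` is a class of smooth projective geometrically irreducible varieties over the field `k` closed
under products (for example all of them), `C` the Chow groups with rational coefficients (in the
form of their formal properties, `IsChowProj`) and `H` a Weil cohomology theory (`IsWeilProj`).

Let `X` be a variety of dimension `d ≥ 2`. Two known theorems about divisors are hypotheses: Murre's
projector onto `H^1(X)` (`HasPicardProjector`), and `Pic^0(T × X) = Pic^0(T) × Pic^0(X)` for curves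
`T` (`SplitPicard`).

`X` has a self-dual Chow-Kunneth decomposition if and only if, choosing one degree from each pair
`{n, 2d - n}`, `2 ≤ n < d`, and an order of the chosen degrees, there are projectors `q_i` onto the
cohomology groups of these degrees with `q_j ∘ q_i = 0` for `i < j` and `σ^* q_j ∘ q_i = 0` for all
`i`, `j`. Nothing is required in the degrees `0, 1, d, 2d - 1, 2d`, nor about `q_i ∘ q_j` and
`q_i ∘ σ^* q_j`. A threefold has a self-dual Chow-Kunneth decomposition if and only if there is one
projector `q` onto `H^2(X)` with `σ^* q ∘ q = 0` or `q ∘ σ^* q = 0`.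

(`C.comp p q` is the composition `q ∘ p`, `tp C` is `σ^*`.)
-/

open CategoryTheory AlgebraicGeometry

set_option autoImplicit false

universe u v w

namespace Pool.Agent.Results.MP_8a7054_ag.IsotropicProjectors

open Pool.Agent.H914 Pool.Agent.W492.BB Pool.Agent.TH133 Pool.Agent.Q28.MS Pool.Agent.Q28.EN
  Pool.Agent.W550.Corr

/-- Self-dual Chow-Kunneth decompositions from isotropic families of projectors. -/
theorem result {k : Type u} [Field k] {𝒱 : VarClass k} (C : TheoryData.{u, v, 0} 𝒱 ℚ)
    [IsChowProj C] {K : Type w} [Field K] (H : WeilTheoryData.{u, v, w} C K) [IsWeilProj H]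
    (X : 𝒱.Obj) (hd : 2 ≤ X.dim) (hS : SplitPicard H X) (hM : HasPicardProjector H X) :
    (HasSelfDualCK H X ↔ ∃ (N : ℕ) (e : ℕ → ℕ) (q : ℕ → C.A (X.prod X)),
      OrderedProjectors H X N e q ∧ (∀ i < N, ∀ j < N, e i + e j ≠ 2 * X.dim) ∧
      (∀ i < N, ∀ j < N, C.comp (q i) (tp C (q j)) = 0) ∧
      ∀ n, 2 ≤ n → n < X.dim → ∃ i < N, e i = n ∨ e i + n = 2 * X.dim) ∧
    (X.dim = 3 → (HasSelfDualCK H X ↔ ∃ q : C.A (X.prod X), ProjectsTo H X 2 q ∧
      (C.comp q (tp C q) = 0 ∨ C.comp (tp C q) q = 0))) :=
  ⟨selfDual_iff_order hS hM hd, selfDual_threefold hS hM⟩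

end Pool.Agent.Results.MP_8a7054_ag.IsotropicProjectors
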