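import Pool.Agent.Q28.EN.Factor

/-!
# Self-dual Chow-Kunneth decompositions from projectors which factor through small varieties

`𝒱` is a class of smooth projective geometrically irreducible varieties over the field `k` closed
under products (for example all of them), `C` the Chow groups with rational coefficients (in the
form of their formal properties, `IsChowProj`) and `H` a Weil cohomology theory (`IsWeilProj`).

Let `X` be a variety of dimension `d ≥ 2`. Known theorems about divisors are hypotheses: Murre's
projector onto `H^1(X)` (`HasPicardProjector`), and `Pic^0(Y × Z) = Pic^0(Y) × Pic^0(Z)`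
(`SplitPicard`, `SplitDivisors`).

Let `q_n`, `2 ≤ n < d`, be projectors of `X` onto `H^n(X)` which factor through varieties of
dimension `n`, as they should by the Lefschetz standard conjecture, with `q_n ∘ q_m = 0` for
`m < n`. The condition `σ^* q_n ∘ q_m = 0`, which is needed for self-duality, holds automatically for
`m + n ≤ d + 1`; if it also holds for `m + n ≥ d + 2`, then `X` has a self-dual Chow-Kunneth
decomposition. For a threefold no condition remains: if `h^2(X)` is a direct summand of the motive of
a surface, then `X` has a self-dual Chow-Kunneth decomposition.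

(`C.comp p q` is the composition `q ∘ p`, `tp C` is `σ^*`.)
-/

open CategoryTheory AlgebraicGeometry

set_option autoImplicit false

universe u v w

namespace Pool.Agent.Results.MP_8a7054_ag.SummandsOfSmallVarieties

open Pool.Agent.H914 Pool.Agent.W492.BB Pool.Agent.TH133 Pool.Agent.Q28.MS Pool.Agent.Q28.EN
  Pool.Agent.W550.Corr

/-- Self-dual Chow-Kunneth decompositions from projectors which factor through small varieties. -/
theorem result {k : Type u} [Field k] {𝒱 : VarClass k} (C : TheoryData.{u, v, 0} 𝒱 ℚ)
    [IsChowProj C] {K : Type w} [Field K] (H : WeilTheoryData.{u, v, w} C K) [IsWeilProj H]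
    (hD : ∀ Y Z : 𝒱.Obj, SplitDivisors H Y Z)
    (X : 𝒱.Obj) (hd : 2 ≤ X.dim) (hM : HasPicardProjector H X) :
    (∀ q : ℕ → C.A (X.prod X),
      (∀ n, 2 ≤ n → n < X.dim → ProjectsTo H X n (q n) ∧
        ∃ Y : 𝒱.Obj, Y.dim = n ∧ FactorsThrough C (q n) Y) →
      (∀ m n, 2 ≤ m → m < n → n < X.dim → C.comp (q m) (q n) = 0) →
      (∀ m n, m < X.dim → n < X.dim → X.dim + 2 ≤ m + n →
        C.comp (q m) (tp C (q n)) = 0) → HasSelfDualCK H X) ∧
    (X.dim = 3 → ∀ (S : 𝒱.Obj) (q : C.A (X.prod X)), S.dim = 2 → ProjectsTo H X 2 q →
      FactorsThrough C q S → HasSelfDualCK H X) :=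
  have hS : SplitPicard H X := fun T δ _ h => hD T X δ h
  ⟨fun _ hq hr ht => selfDual_of_factors hS hM hd hD hq hr ht,
    fun h3 S _ hS2 hq hf => threefold hS hM h3 hS2 (hD S S) hq hf⟩

end Pool.Agent.Results.MP_8a7054_ag.SummandsOfSmallVarieties
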