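import Pool.Agent.Q28.MS.Summand

/-!
# Self-dual Chow-Kunneth decompositions: a criterion by triple products

`𝒱` is a class of smooth projective geometrically irreducible varieties over the field `k` closed
under products (for example all of them), `C` the Chow groups with rational coefficients (in the
form of their formal properties, `IsChowProj`) and `H` a Weil cohomology theory (`IsWeilProj`).

The following are equivalent for a variety `X`:
* `X` has a self-dual Chow-Kunneth decomposition;
* `X` has a Chow-Kunneth decomposition `π` such that the finitely many triple products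
  `π_b ∘ σ^* π_j ∘ π_a` with `a < b` and `a < dim X < j` vanish;
* `X` has mutually orthogonal Künneth projectors `q_n` for `n < dim X` only, with
  `σ^* q_m ∘ q_n = 0`.

No finite-dimensionality is assumed.
-/

open CategoryTheory AlgebraicGeometry

set_option autoImplicit false

universe u v w

namespace Pool.Agent.Results.MP_8a7054_ag.TripleProductCriterion

open Pool.Agent.H914 Pool.Agent.W492.BB Pool.Agent.TH133 Pool.Agent.Q28.MS

/-- Self-dual Chow-Kunneth decompositions: triple products and lower halves. -/
theorem result {k : Type u} [Field k] {𝒱 : VarClass k} (C : TheoryData.{u, v, 0} 𝒱 ℚ)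
    [IsChowProj C] {K : Type w} [Field K] (H : WeilTheoryData.{u, v, w} C K) [IsWeilProj H]
    (X : 𝒱.Obj) :
    [HasSelfDualCK H X,
      ∃ π, IsCK H X π ∧ ∀ a b j : ℕ, a < b → a < X.dim → X.dim < j →
        C.comp (C.comp (π a) (tp C (π j))) (π b) = 0,
      HasLowerHalf H X].TFAE := by
  tfae_have 1 ↔ 2 := selfDual_iff X
  tfae_have 1 → 3 := lowerHalf_of_selfDual
  tfae_have 3 → 1 := selfDual_of_lowerHalf
  tfae_finish

end Pool.Agent.Results.MP_8a7054_ag.TripleProductCriterion
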